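import Pool.Agent.Helper38.D.Rank

/-!
Relations of length `K` and the derivatives of their shifts.
-/

namespace Helper35.BallK

open MvPolynomial Helper38.BallD

variable {n : ℕ} {ι : Type*}

/-- A relation of length `K` between the coefficients of the line expansion. -/
def IsRel (P : ι → MvPolynomial (Fin n) ℂ) (d K : ℕ) (r : ℕ → R2 n) : Prop :=
  ∀ q < K, ∀ c, ∑ i ∈ Finset.range (d + 1), r (i + q) * G i (P c) = 0

/-- The directional derivative in `ξ`. -/
noncomputable def Dξ (w : Fin n → ℂ) (p : R2 n) : R2 n :=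
  ∑ k, C (w k) * pderiv (Sum.inr k) p

/-- The directional derivative in `z`. -/
noncomputable def Dz (w : Fin n → ℂ) (p : R2 n) : R2 n :=
  ∑ k, C (w k) * pderiv (Sum.inl k) p

lemma Dξ_add (w : Fin n → ℂ) (p q : R2 n) : Dξ w (p + q) = Dξ w p + Dξ w q := by
  simp only [Dξ, map_add, mul_add, Finset.sum_add_distrib]

lemma Dξ_neg (w : Fin n → ℂ) (p : R2 n) : Dξ w (-p) = -Dξ w p := by
  simp only [Dξ, map_neg, mul_neg, Finset.sum_neg_distrib]

lemma Dξ_sum {κ : Type*} (s : Finset κ) (w : Fin n → ℂ) (p : κ → R2 n) :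
    Dξ w (∑ i ∈ s, p i) = ∑ i ∈ s, Dξ w (p i) := by
  simp only [Dξ, map_sum, Finset.mul_sum]
  rw [Finset.sum_comm]

lemma Dξ_mul (w : Fin n → ℂ) (p q : R2 n) : Dξ w (p * q) = Dξ w p * q + p * Dξ w q := by
  simp only [Dξ, pderiv_mul, mul_add, Finset.sum_add_distrib, Finset.sum_mul, Finset.mul_sum]
  congr 1
  · exact Finset.sum_congr rfl fun k _ => by ring
  · exact Finset.sum_congr rfl fun k _ => by ring

lemma Dz_sum {κ : Type*} (s : Finset κ) (w : Fin n → ℂ) (p : κ → R2 n) :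
    Dz w (∑ i ∈ s, p i) = ∑ i ∈ s, Dz w (p i) := by
  simp only [Dz, map_sum, Finset.mul_sum]
  rw [Finset.sum_comm]

lemma Dz_mul (w : Fin n → ℂ) (p q : R2 n) : Dz w (p * q) = Dz w p * q + p * Dz w q := by
  simp only [Dz, pderiv_mul, mul_add, Finset.sum_add_distrib, Finset.sum_mul, Finset.mul_sum]
  congr 1
  · exact Finset.sum_congr rfl fun k _ => by ring
  · exact Finset.sum_congr rfl fun k _ => by ring

lemma Dξ_zero' (w : Fin n → ℂ) : Dξ w (0 : R2 n) = 0 := by simp [Dξ]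

lemma Dz_zero' (w : Fin n → ℂ) : Dz w (0 : R2 n) = 0 := by simp [Dz]

lemma Dξ_G_zero (w : Fin n → ℂ) (p : MvPolynomial (Fin n) ℂ) : Dξ w (G 0 p) = 0 := by
  simp [Dξ, (G_deriv p _).1]

lemma Dξ_G_succ (w : Fin n → ℂ) (p : MvPolynomial (Fin n) ℂ) (i : ℕ) :
    Dξ w (G (i + 1) p) = Dz w (G i p) := by
  simp only [Dξ, Dz, (G_deriv p _).2]

lemma Dz_G_top {d : ℕ} {p : MvPolynomial (Fin n) ℂ} (hp : p.totalDegree ≤ d) (w : Fin n → ℂ) :
    Dz w (G d p) = 0 := by
  rw [← Dξ_G_succ, G_eq_zero hp (Nat.lt_succ_self d), Dξ_zero']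

/-- The derived relation. -/
noncomputable def drel (w : Fin n → ℂ) (r : ℕ → R2 n) (i : ℕ) : R2 n :=
  Dz w (r (i + 1)) - Dξ w (r i)

lemma drel_isRel {P : ι → MvPolynomial (Fin n) ℂ} {d K : ℕ} (hP : ∀ c, (P c).totalDegree ≤ d)
    {r : ℕ → R2 n} (hr : IsRel P d (K + 1) r) (w : Fin n → ℂ) : IsRel P d K (drel w r) := by
  intro q hq c
  have h1 := congrArg (Dz w) (hr (q + 1) (by omega) c)
  have h2 := congrArg (Dξ w) (hr q (by omega) c)
  rw [Dz_sum, Dz_zero'] at h1
  rw [Dξ_sum, Dξ_zero'] at h2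
  simp only [Dz_mul, Finset.sum_add_distrib] at h1
  simp only [Dξ_mul, Finset.sum_add_distrib] at h2
  have h3 : ∑ i ∈ Finset.range (d + 1), r (i + (q + 1)) * Dz w (G i (P c))
      = ∑ i ∈ Finset.range d, r (i + (q + 1)) * Dz w (G i (P c)) := by
    rw [Finset.sum_range_succ, Dz_G_top (hP c), mul_zero, add_zero]
  have h4 : ∑ i ∈ Finset.range (d + 1), r (i + q) * Dξ w (G i (P c))
      = ∑ i ∈ Finset.range d, r (i + (q + 1)) * Dz w (G i (P c)) := by
    rw [Finset.sum_range_succ', Dξ_G_zero, mul_zero, add_zero]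
    refine Finset.sum_congr rfl fun i _ => ?_
    rw [Dξ_G_succ]
    congr 2
    omega
  rw [h3] at h1
  rw [h4] at h2
  have h5 : ∑ i ∈ Finset.range (d + 1), drel w r (i + q) * G i (P c)
      = ∑ i ∈ Finset.range (d + 1), Dz w (r (i + (q + 1))) * G i (P c)
        - ∑ i ∈ Finset.range (d + 1), Dξ w (r (i + q)) * G i (P c) := by
    rw [← Finset.sum_sub_distrib]
    refine Finset.sum_congr rfl fun i _ => ?_
    rw [drel, sub_mul]
    rfl
  rw [h5]
  linear_combination h1 - h2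

lemma Dξ_shiftRel {P : ι → MvPolynomial (Fin n) ℂ} {d K : ℕ} (hP : ∀ c, (P c).totalDegree ≤ d)
    {r : ℕ → R2 n} (hr : IsRel P d (K + 1) r) (w : Fin n → ℂ) (c : ι) :
    Dξ w (shiftRel P d r c) = -shiftRel P d (drel w r) c - Dz w (r 0) * G 0 (P c) := by
  have h1 := congrArg (Dz w) (hr 0 (by omega) c)
  rw [Dz_sum, Dz_zero'] at h1
  simp only [Dz_mul, Finset.sum_add_distrib, add_zero] at h1
  have h2 : Dξ w (shiftRel P d r c) = ∑ i ∈ Finset.range (d + 1), Dξ w (r i) * G (i + 1) (P c)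
      + ∑ i ∈ Finset.range (d + 1), r i * Dz w (G i (P c)) := by
    unfold shiftRel
    rw [Dξ_sum, ← Finset.sum_add_distrib]
    exact Finset.sum_congr rfl fun i _ => by rw [Dξ_mul, Dξ_G_succ]
  have h3 : shiftRel P d (drel w r) c
      = ∑ i ∈ Finset.range (d + 1), Dz w (r (i + 1)) * G (i + 1) (P c)
        - ∑ i ∈ Finset.range (d + 1), Dξ w (r i) * G (i + 1) (P c) := by
    unfold shiftRel
    rw [← Finset.sum_sub_distrib]
    exact Finset.sum_congr rfl fun i _ => by rw [drel, sub_mul]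
  have h4 : ∑ i ∈ Finset.range (d + 1), Dz w (r (i + 1)) * G (i + 1) (P c)
      + Dz w (r 0) * G 0 (P c) = ∑ i ∈ Finset.range (d + 1), Dz w (r i) * G i (P c) := by
    rw [← Finset.sum_range_succ' (fun i => Dz w (r i) * G i (P c)), Finset.sum_range_succ,
      G_eq_zero (hP c) (Nat.lt_succ_self d), mul_zero, add_zero]
  rw [h2, h3]
  linear_combination h1 + h4

lemma foldr_neg (l : List (Fin n → ℂ)) (p : R2 n) :
    l.foldr (fun w q => Dξ w q) (-p) = -l.foldr (fun w q => Dξ w q) p := by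
  induction l with
  | nil => rfl
  | cons w l ih => rw [List.foldr_cons, ih, Dξ_neg]; rfl

lemma foldr_add (l : List (Fin n → ℂ)) (p p' : R2 n) :
    l.foldr (fun w q => Dξ w q) (p + p')
      = l.foldr (fun w q => Dξ w q) p + l.foldr (fun w q => Dξ w q) p' := by
  induction l with
  | nil => rfl
  | cons w l ih => rw [List.foldr_cons, ih, Dξ_add]; rfl

lemma foldr_mul_G (l : List (Fin n → ℂ)) (f : R2 n) (p : MvPolynomial (Fin n) ℂ) :
    l.foldr (fun w q => Dξ w q) (f * G 0 p) = l.foldr (fun w q => Dξ w q) f * G 0 p := by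
  induction l with
  | nil => rfl
  | cons w l ih => rw [List.foldr_cons, ih, Dξ_mul, Dξ_G_zero, mul_zero, add_zero]; rfl

/-- Derivatives in `ξ` of order at most `K` of the shift of a relation of length `K` stay in the
span of the coefficient vectors. -/
theorem deriv_mem {P : ι → MvPolynomial (Fin n) ℂ} {d : ℕ}
    (hP : ∀ c, (P c).totalDegree ≤ d) (l : List (Fin n → ℂ)) {r : ℕ → R2 n} {K : ℕ}
    (hr : IsRel P d K r) (hl : l.length ≤ K) (z ξ : Fin n → ℂ) :
    (fun c => eval (Sum.elim z ξ) (l.foldr (fun w q => Dξ w q) (shiftRel P d r c))) ∈ Sp P d z ξ := by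
  induction l using List.reverseRecOn generalizing r K with
  | nil => exact shiftRel_mem hP r z ξ
  | append_singleton l w ih =>
    rw [List.length_append, List.length_singleton] at hl
    obtain ⟨K, rfl⟩ : ∃ K', K = K' + 1 := ⟨K - 1, by omega⟩
    have h1 := ih (drel_isRel hP hr w) (by omega)
    have h2 : (fun c => eval (Sum.elim z ξ)
        ((l ++ [w]).foldr (fun w q => Dξ w q) (shiftRel P d r c)))
        = (-1 : ℂ) • (fun c => eval (Sum.elim z ξ)
            (l.foldr (fun w q => Dξ w q) (shiftRel P d (drel w r) c)))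
          + (-eval (Sum.elim z ξ) (l.foldr (fun w q => Dξ w q) (Dz w (r 0)))) • vec P 0 z ξ := by
      funext c
      rw [List.foldr_append, List.foldr_cons, List.foldr_nil, Dξ_shiftRel hP hr, sub_eq_add_neg,
        foldr_add, foldr_neg, foldr_neg, foldr_mul_G]
      simp [vec]
    rw [h2]
    exact Submodule.add_mem _ (Submodule.smul_mem _ _ h1)
      (Submodule.smul_mem _ _ (vec_mem hP 0 z ξ))

end Helper35.BallK
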