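import Pool.Agent.Helper38.D.Bound
import Pool.Agent.Helper35.BallK.Deriv
import Pool.Agent.Helper62.DA.GenRel
import Pool.Agent.Helper62.DA.ShiftK
import Pool.Agent.Helper64.DG.LocalK

/-!
The degree bound with relations of length `K`.
-/

namespace Helper35.BallK

open MvPolynomial Helper38.BallD

variable {n N : ℕ}

lemma pderiv_theta' {m : ℕ} (ζ : Fin n → ℂ) (ξ : Fin m → Fin n → ℂ) (i : Fin m) (g : R2 n) :
    pderiv i (theta ζ ξ g) = theta ζ ξ (Dξ (ξ i) g) := by
  rw [pderiv_theta, Dξ, map_sum]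
  refine Finset.sum_congr rfl fun k _ => ?_
  rw [map_mul]
  congr 1
  simp [theta]

lemma foldr_theta {m : ℕ} (ζ : Fin n → ℂ) (ξ : Fin m → Fin n → ℂ) (l : List (Fin m)) (g : R2 n) :
    l.foldr (fun i q => pderiv i q) (theta ζ ξ g)
      = theta ζ ξ ((l.map ξ).foldr (fun w q => Dξ w q) g) := by
  induction l with
  | nil => rfl
  | cons i l ih => rw [List.foldr_cons, ih, pderiv_theta', List.map_cons, List.foldr_cons]

/-- The numerical map whose kernel is the space of relations of length `K`. -/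
noncomputable def relMap (P : Fin (N + 1) → MvPolynomial (Fin n) ℂ) {d : ℕ}
    (hP : ∀ c, (P c).totalDegree ≤ d) (K : ℕ) (z ξ : Fin n → ℂ) :
    (Fin (d + K) → ℂ) →ₗ[ℂ] (Fin K → Sp P d z ξ) where
  toFun s q := ∑ i : Fin (d + 1), s ⟨i + q, by omega⟩ • ⟨vec P i z ξ, vec_mem hP _ _ _⟩
  map_add' s s' := by
    funext q
    simp only [Pi.add_apply, add_smul, Finset.sum_add_distrib]
  map_smul' a s := by
    funext q
    simp only [Pi.smul_apply, smul_eq_mul, mul_smul, Finset.smul_sum, RingHom.id_apply]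

lemma dim_le (P : Fin (N + 1) → MvPolynomial (Fin n) ℂ) {d : ℕ}
    (hP : ∀ c, (P c).totalDegree ≤ d) (K : ℕ) (z ξ : Fin n → ℂ)
    (h : Function.Injective (relMap P hP K z ξ)) :
    d + K ≤ K * Module.finrank ℂ (Sp P d z ξ) := by
  have h1 := LinearMap.finrank_le_finrank_of_injective h
  rw [Module.finrank_fin_fun, Module.finrank_pi_fintype] at h1
  simpa using h1

/-- The family of shifted vectors. -/
noncomputable def shfam (P : Fin (N + 1) → MvPolynomial (Fin n) ℂ) (d K : ℕ) (j : Fin (d + K))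
    (k : Fin K × Fin (N + 1)) : R2 n :=
  if (k.1 : ℕ) ≤ j then G (j - k.1) (P k.2) else 0

lemma shfam_sum {R : Type*} [CommRing R] (f : R2 n →+* R)
    {P : Fin (N + 1) → MvPolynomial (Fin n) ℂ} {d K : ℕ}
    (hP : ∀ c, (P c).totalDegree ≤ d) (s : ℕ → R) (q : Fin K) (c : Fin (N + 1)) :
    ∑ j : Fin (d + K), s j * f (shfam P d K j (q, c))
      = ∑ i ∈ Finset.range (d + 1), s (i + q) * f (G i (P c)) := by
  have h1 : ∑ j : Fin (d + K), s j * f (shfam P d K j (q, c))
      = ∑ j ∈ Finset.range (d + K), s j * f (if (q : ℕ) ≤ j then G (j - q) (P c) else 0) := by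
    rw [Finset.sum_range]
    rfl
  rw [h1]
  have h2 : ∑ j ∈ Finset.range (d + K), s j * f (if (q : ℕ) ≤ j then G (j - q) (P c) else 0)
      = ∑ j ∈ Finset.Ico (q : ℕ) (q + (d + 1)),
        s j * f (if (q : ℕ) ≤ j then G (j - q) (P c) else 0) := by
    symm
    apply Finset.sum_subset
    · intro j hj
      rw [Finset.mem_Ico] at hj
      rw [Finset.mem_range]
      have := q.2
      omega
    · intro j hj hj'
      rw [Finset.mem_Ico] at hj'
      by_cases hq : (q : ℕ) ≤ j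
      · rw [if_pos hq, G_eq_zero (hP c) (by omega), map_zero, mul_zero]
      · rw [if_neg hq, map_zero, mul_zero]
  rw [h2, Finset.sum_Ico_eq_sum_range]
  have h3 : (q : ℕ) + (d + 1) - q = d + 1 := by omega
  rw [h3]
  refine Finset.sum_congr rfl fun i _ => ?_
  rw [if_pos (Nat.le_add_right _ _), Nat.add_sub_cancel_left, add_comm]

/-- The heart of the argument. -/
theorem rank_big_k {m K : ℕ} (hm : 1 ≤ m) {P : Fin (N + 1) → MvPolynomial (Fin n) ℂ} {d : ℕ}
    (hP : ∀ c, (P c).totalDegree ≤ d)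
    (hK : ∀ z ω : Fin n → ℂ, ∑ k, z k * ω k = 1 →
      ∑ c, sg N c * eval z (P c) * eval ω (map (starRingEnd ℂ) (P c)) = 0)
    {ζ : Fin n → ℂ} {ξ : Fin m → Fin n → ℂ} (h1 : ∑ k, ζ k * starRingEnd ℂ (ζ k) = 1)
    (h2 : ∀ i, ∑ k, ζ k * starRingEnd ℂ (ξ i k) = 0)
    (h2' : ∀ i, ∑ k, ξ i k * starRingEnd ℂ (ζ k) = 0)
    (h3 : ∀ i j, ∑ k, ξ i k * starRingEnd ℂ (ξ j k) = if i = j then 1 else 0)
    (hform : ∀ z w : Fin n → ℂ, ∑ k, z k * starRingEnd ℂ (w k) = 1 →
      form (fun c => eval z (P c)) (fun c => eval w (P c)) = 0)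
    (i0 : Fin m) (he : vec P 0 ζ (ξ i0) ≠ 0)
    {r : ℕ → R2 n} (hr : IsRel P d K r)
    (hu : ∀ κ : ℂ, (fun c => eval (Sum.elim ζ (ξ i0)) (shiftRel P d r c)) ≠ κ • vec P 0 ζ (ξ i0)) :
    ∃ w : Fin n → ℂ, (K + m).choose m + 1 ≤ Module.finrank ℂ (Sp P d ζ w) := by
  classical
  obtain ⟨B0, -, -, -, hB0, -⟩ := star P (sg N) hK ζ ξ h1 h2 h2' h3
  set e : Fin (N + 1) → ℂ := vec P 0 ζ (ξ i0) with hedef
  have hee : e = fun c => eval ζ (P c) := vec_zero P ζ (ξ i0)
  have hnull : form e e = 0 := by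
    rw [hee]
    exact hform ζ ζ h1
  set ξ' : Fin (m + 1) → Fin n → ℂ := Fin.cons ζ ξ with hξ'
  set L : (Fin (m + 1) → ℂ) → Fin n → ℂ := fun x k => ∑ i, ξ' i k * x i with hL
  set W : (Fin m → ℂ) → Fin n → ℂ := fun y k => ζ k + ∑ i, ξ i k * starRingEnd ℂ (y i) with hW
  have hLe : ∀ x k, L x k = ζ k * x 0 + ∑ i : Fin m, ξ i k * x i.succ := by
    intro x k
    simp only [hL, hξ', Fin.sum_univ_succ, Fin.cons_zero, Fin.cons_succ]
  have hWe : ∀ y k, starRingEnd ℂ (W y k)
      = starRingEnd ℂ (ζ k) + ∑ i, starRingEnd ℂ (ξ i k) * y i := by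
    intro y k
    simp [hW]
  have hζW : ∀ y, ∑ k, ζ k * starRingEnd ℂ (W y k) = 1 := by
    intro y
    have e1 : ∑ k, ζ k * ∑ i, starRingEnd ℂ (ξ i k) * y i = 0 := by
      simp only [Finset.mul_sum]
      rw [Finset.sum_comm]
      refine Finset.sum_eq_zero fun i _ => ?_
      have : ∑ k, ζ k * (starRingEnd ℂ (ξ i k) * y i)
          = (∑ k, ζ k * starRingEnd ℂ (ξ i k)) * y i := by
        rw [Finset.sum_mul]
        exact Finset.sum_congr rfl fun k _ => by ring
      rw [this, h2, zero_mul]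
    simp only [hWe, mul_add, Finset.sum_add_distrib]
    rw [h1, e1, add_zero]
  have hξW : ∀ y (i : Fin m), ∑ k, ξ i k * starRingEnd ℂ (W y k) = y i := by
    intro y i
    simp only [hWe, mul_add, Finset.sum_add_distrib, h2', zero_add, Finset.mul_sum]
    rw [Finset.sum_comm]
    have : ∀ j, ∑ k, ξ i k * (starRingEnd ℂ (ξ j k) * y j) = (if i = j then 1 else 0) * y j := by
      intro j
      rw [← h3 i j, Finset.sum_mul]
      exact Finset.sum_congr rfl fun k _ => by ring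
    simp only [this]
    simp
  have hLW : ∀ x y, ∑ k, L x k * starRingEnd ℂ (W y k) = x 0 + ∑ i : Fin m, x i.succ * y i := by
    intro x y
    simp only [hLe, add_mul, Finset.sum_add_distrib, Finset.sum_mul]
    rw [Finset.sum_comm]
    congr 1
    · have : ∑ k, ζ k * x 0 * starRingEnd ℂ (W y k) = x 0 * ∑ k, ζ k * starRingEnd ℂ (W y k) := by
        rw [Finset.mul_sum]
        exact Finset.sum_congr rfl fun k _ => by ring
      rw [this, hζW, mul_one]
    · refine Finset.sum_congr rfl fun i _ => ?_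
      have : ∑ k, ξ i k * x i.succ * starRingEnd ℂ (W y k)
          = x i.succ * ∑ k, ξ i k * starRingEnd ℂ (W y k) := by
        rw [Finset.mul_sum]
        exact Finset.sum_congr rfl fun k _ => by ring
      rw [this, hξW]
  have hpair : ∀ (u : Fin (N + 1) → ℂ) (y : Fin m → ℂ), ∑ c, u c * eval y (B0 c)
      = form u (fun c => eval (W y) (P c)) := by
    intro u y
    unfold form
    refine Finset.sum_congr rfl fun c _ => ?_
    rw [hB0]
    ring
  have heB : ∑ c, C (e c) * B0 c = 0 := by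
    apply MvPolynomial.funext
    intro y
    rw [map_sum, map_zero]
    have h4 := hpair e y
    rw [hee, hform ζ (W y) (hζW y)] at h4
    rw [← h4]
    refine Finset.sum_congr rfl fun c _ => ?_
    rw [map_mul, eval_C, hee]
  suffices hfin : ∃ x, (K + m).choose m + 1 ≤ Module.finrank ℂ (Sp P d ζ (L x)) by
    obtain ⟨x, hx⟩ := hfin
    exact ⟨L x, hx⟩
  refine Helper64.DG.local_dim_k (K := K) hm (fun c => theta ζ ξ' (shiftRel P d r c)) B0 e he heB
    (fun x => Sp P d ζ (L x)) ?_ ?_ ?_ ?_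
  · -- `heS`
    intro x
    have : e = vec P 0 ζ (L x) := by rw [hee, vec_zero]
    rw [this]
    exact vec_mem hP _ _ _
  · -- `hmem`
    intro x l hl
    have := deriv_mem hP (l.map ξ') hr (by rw [List.length_map]; exact hl) ζ (L x)
    convert this using 2 with c
    rw [foldr_theta, eval_theta]
  · -- `hperp`
    intro x y hxy v hv
    rw [hpair]
    refine Sp_perp hP (fun s => ?_) v hv
    apply hform
    have : ∑ k, (ζ k + s * L x k) * starRingEnd ℂ (W y k)
        = ∑ k, ζ k * starRingEnd ℂ (W y k) + s * ∑ k, L x k * starRingEnd ℂ (W y k) := by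
      rw [Finset.mul_sum, ← Finset.sum_add_distrib]
      exact Finset.sum_congr rfl fun k _ => by ring
    rw [this, hζW, hLW, hxy, mul_zero, add_zero]
  · -- `Φ ≠ 0`
    intro hΦ
    set x1 : Fin (m + 1) → ℂ := Pi.single i0.succ 1 with hx1
    have hLx1 : L x1 = ξ i0 := by
      funext k
      rw [hLe, Finset.sum_eq_single i0]
      · simp [hx1]
      · intro j _ hj
        have : (Pi.single i0.succ 1 : Fin (m + 1) → ℂ) j.succ = 0 := by
          rw [Pi.single_eq_of_ne]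
          exact fun h => hj (Fin.succ_injective _ h)
        rw [hx1, this, mul_zero]
      · simp
    set u : Fin (N + 1) → ℂ := fun c => eval (Sum.elim ζ (ξ i0)) (shiftRel P d r c) with hudef
    have huS : u ∈ Sp P d ζ (ξ i0) := shiftRel_mem hP _ _ _
    have hWy : ∀ s : ℂ, W (Pi.single i0 (starRingEnd ℂ s)) = fun k => ζ k + s * ξ i0 k := by
      intro s
      funext k
      simp only [hW]
      rw [Finset.sum_eq_single i0]
      · simp [mul_comm]
      · intro j _ hj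
        simp [hj]
      · simp
    have h4 : ∀ s : ℂ, form u (fun c => eval (fun k => ζ k + s * ξ i0 k) (P c)) = 0 := by
      intro s
      have h5 := congrArg (eval (Sum.elim x1 (Pi.single i0 (starRingEnd ℂ s) : Fin m → ℂ))) hΦ
      rw [map_sum, map_zero] at h5
      rw [← hWy, ← hpair, ← h5]
      refine Finset.sum_congr rfl fun c _ => ?_
      rw [map_mul, eval_rename, eval_rename]
      have h7 : (Sum.elim x1 (Pi.single i0 (starRingEnd ℂ s) : Fin m → ℂ)) ∘ Sum.inl = x1 := rfl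
      have h8 : (Sum.elim x1 (Pi.single i0 (starRingEnd ℂ s) : Fin m → ℂ)) ∘ Sum.inr
        = Pi.single i0 (starRingEnd ℂ s) := rfl
      rw [h7, h8, eval_theta]
      congr 1
      rw [hudef]
      have h9 : (fun k => ∑ i, ξ' i k * x1 i) = L x1 := rfl
      rw [h9, hLx1]
    have h5 := Sp_perp' hP h4 u huS
    have h6 : form u e = 0 := by
      rw [hee]
      have := h4 0
      simpa using this
    obtain ⟨κ, hκ⟩ := null_prop he hnull h6 h5
    exact hu κ hκ

theorem bound_k {m N : ℕ} (hm : 1 ≤ m) {P : Fin (N + 1) → MvPolynomial (Fin (m + 1)) ℂ} {d : ℕ}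
    (hP : ∀ c, (P c).totalDegree ≤ d) (htop : ∃ c, (P c).totalDegree = d ∧ P c ≠ 0)
    (hcop : ∀ g, (∀ c, g ∣ P c) → g.totalDegree = 0)
    (hK : ∀ z ω : Fin (m + 1) → ℂ, ∑ k, z k * ω k = 1 →
      ∑ c, sg N c * eval z (P c) * eval ω (map (starRingEnd ℂ) (P c)) = 0)
    (hnc : ∃ c c', G 0 (P c) * G 1 (P c') - G 0 (P c') * G 1 (P c) ≠ 0) (K : ℕ) (hK1 : 1 ≤ K) :
    m * d ≤ K * (N - 1) ∨ 1 + m * (K + m).choose m ≤ N := by
  classical
  obtain ⟨ct, hct, hct0⟩ := htop
  obtain ⟨c, c', hcc⟩ := hnc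
  obtain ⟨a, D, -, hD0, hmax, hge, -, -⟩ := exists_minor hP
  obtain ⟨D2, rel, hD20, hrel, hrels⟩ := gen_rel (shfam P d K)
  obtain ⟨ρ, hρ0, hρ⟩ := exists_rho hct0 hcop
  have hGt : G d (P ct) ≠ 0 := G_top hct hct0
  obtain ⟨ζ, ξ, h1, h2, h2', h3, hD, hρ', hGt', hmin⟩ :=
    exists_frame (⟨0, by omega⟩ : Fin m) hD0 hρ0 (mul_ne_zero hGt hD20) hcc
  generalize (⟨0, by omega⟩ : Fin m) = i0 at hρ' hGt' hmin
  rw [map_mul] at hGt'
  have hD2' := right_ne_zero_of_mul hGt'
  replace hGt' := left_ne_zero_of_mul hGt'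
  have hform := form_of_hK hK
  rw [map_sub, map_mul, map_mul] at hmin
  have he0 : vec P 0 ζ (ξ i0) ≠ 0 := by
    intro h0
    apply hmin
    have h4 : ∀ c, eval (Sum.elim ζ (ξ i0)) (G 0 (P c)) = 0 := fun c => congrFun h0 c
    rw [h4, h4, zero_mul, zero_mul, sub_zero]
  have hnull : form (vec P 0 ζ (ξ i0)) (vec P 0 ζ (ξ i0)) = 0 := by
    rw [vec_zero]
    exact hform ζ ζ h1
  have ha1 : 1 ≤ a := by
    have h4 : (Submodule.span ℂ {vec P 0 ζ (ξ i0)}) ≤ Sp P d ζ (ξ i0) := by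
      rw [Submodule.span_singleton_le_iff_mem]
      exact vec_mem hP _ _ _
    have h5 := Submodule.finrank_mono h4
    rw [finrank_span_singleton he0] at h5
    exact h5.trans (hmax _ _)
  obtain ⟨a', rfl⟩ : ∃ a', a = a' + 1 := ⟨a - 1, by omega⟩
  have hcount : 1 + m * a' ≤ N := count he0 hnull (fun i => Sp P d ζ (ξ i))
    (fun i => by
      rw [vec_zero]
      exact Sp_orth_e hP hform h1 (h2' i))
    (fun i j hij => Sp_orth hP hform h1 (h2 j) (h2' i) (by rw [h3, if_neg hij]))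
    (fun i => hge _ _ (hD i))
  by_cases hinj : Function.Injective (relMap P hP K ζ (ξ i0))
  · left
    have h4 := dim_le P hP K ζ (ξ i0) hinj
    have h5 : K * Module.finrank ℂ (Sp P d ζ (ξ i0)) ≤ K * (a' + 1) :=
      Nat.mul_le_mul_left K (hmax _ _)
    have h6 : d ≤ K * a' := by
      rw [Nat.mul_add, Nat.mul_one] at h5
      omega
    calc m * d ≤ m * (K * a') := Nat.mul_le_mul_left m h6
      _ = K * (m * a') := by ring
      _ ≤ K * (N - 1) := Nat.mul_le_mul_left K (by omega)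
  right
  -- numerical relation
  obtain ⟨s0, hs0, hs0ne⟩ : ∃ s0 : Fin (d + K) → ℂ, relMap P hP K ζ (ξ i0) s0 = 0 ∧ s0 ≠ 0 := by
    rw [← LinearMap.ker_eq_bot, Submodule.eq_bot_iff] at hinj
    push Not at hinj
    exact hinj
  have hdep : ∃ s : ℕ → ℂ, (∃ j, j < d + K ∧ s j ≠ 0) ∧
      ∀ q < K, ∑ i ∈ Finset.range (d + 1), s (i + q) • vec P i ζ (ξ i0) = 0 := by
    refine ⟨fun i => if h : i < d + K then s0 ⟨i, h⟩ else 0, ?_, ?_⟩
    · obtain ⟨j, hj⟩ := Function.ne_iff.1 hs0ne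
      exact ⟨j, j.2, by simpa using hj⟩
    · intro q hq
      have h4 := congrArg Subtype.val (congrFun hs0 ⟨q, hq⟩)
      simp only [relMap, LinearMap.coe_mk, AddHom.coe_mk, Submodule.coe_sum, Submodule.coe_smul,
        Pi.zero_apply, ZeroMemClass.coe_zero] at h4
      rw [Finset.sum_range, ← h4]
      refine Finset.sum_congr rfl fun i _ => ?_
      have h5 : (i : ℕ) + q < d + K := by
        have := i.2
        omega
      simp only [h5, dif_pos]
  have hnz : ∀ μ : ℂ, ∑ i ∈ Finset.range (d + 1), μ ^ i • vec P i ζ (ξ i0) ≠ 0 := by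
    intro μ h4
    obtain ⟨c, hc⟩ := hρ ζ (ξ i0) hρ' μ
    apply hc
    have h5 := congrFun (pt_expand hP ζ (ξ i0) μ) c
    rw [h4] at h5
    exact h5
  have hd0 : vec P d ζ (ξ i0) ≠ 0 := fun h4 => hGt' (congrFun h4 ct)
  have htop0 : ∀ i, d < i → vec P i ζ (ξ i0) = 0 := by
    intro i hi
    funext c
    simp only [vec]
    rw [G_eq_zero (hP c) hi, map_zero]
    rfl
  obtain ⟨s, hs, -, hsn⟩ := exists_shift_k hK1 (fun i => vec P i ζ (ξ i0)) he0 htop0 hnz hd0 hdep
  -- polynomial relation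
  set rl : Fin (d + K) → ℕ → R2 (m + 1) := fun l i => if h : i < d + K then rel l ⟨i, h⟩ else 0
    with hrl
  have hrlj : ∀ l (j : Fin (d + K)), rl l j = rel l j := by
    intro l j
    simp only [hrl, j.2, dif_pos]
  have hisrel : ∀ l, IsRel P d K (rl l) := by
    intro l q hq c
    have h4 := hrel l (⟨q, hq⟩, c)
    have h5 := shfam_sum (RingHom.id (R2 (m + 1))) hP (rl l) ⟨q, hq⟩ c
    simp only [RingHom.id_apply, hrlj] at h5
    rw [h4] at h5
    exact h5.symm
  have hnum : ∀ j : Fin (d + K), ∑ l : Fin (d + K), s l * eval (Sum.elim ζ (ξ i0)) (rel l j)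
      = -(eval (Sum.elim ζ (ξ i0)) D2) * s j := by
    refine hrels (Sum.elim ζ (ξ i0)) (fun j => s j) ?_
    rintro ⟨q, c⟩
    rw [shfam_sum (eval (Sum.elim ζ (ξ i0))) hP s q c]
    have h4 := congrFun (hs q q.2) c
    rw [Finset.sum_apply] at h4
    exact h4
  obtain ⟨l, hl⟩ : ∃ l, ∀ κ : ℂ,
      (fun c => eval (Sum.elim ζ (ξ i0)) (shiftRel P d (rl l) c)) ≠ κ • vec P 0 ζ (ξ i0) := by
    by_contra hcon
    push Not at hcon
    apply hsn
    have h4 : -(eval (Sum.elim ζ (ξ i0)) D2) •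
        ∑ i ∈ Finset.range (d + 1), s i • vec P (i + 1) ζ (ξ i0)
        = ∑ l : Fin (d + K), s l • (fun c => eval (Sum.elim ζ (ξ i0)) (shiftRel P d (rl l) c)) := by
      funext c
      rw [Pi.smul_apply, Finset.sum_apply, Finset.sum_apply, smul_eq_mul, Finset.mul_sum]
      simp only [Pi.smul_apply, smul_eq_mul, shiftRel, map_sum, map_mul, Finset.mul_sum]
      rw [Finset.sum_comm]
      refine Finset.sum_congr rfl fun i hi => ?_
      have hi' : i < d + K := by have := Finset.mem_range.1 hi; omega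
      have h5 := hnum ⟨i, hi'⟩
      have h6 : ∀ l, eval (Sum.elim ζ (ξ i0)) (rl l i)
          = eval (Sum.elim ζ (ξ i0)) (rel l ⟨i, hi'⟩) := by
        intro l
        rw [← hrlj l ⟨i, hi'⟩]
      simp only [h6, ← mul_assoc]
      rw [← Finset.sum_mul, h5]
      simp only [vec]
    have h5 : ∑ l : Fin (d + K), s l •
        (fun c => eval (Sum.elim ζ (ξ i0)) (shiftRel P d (rl l) c))
          ∈ Submodule.span ℂ {vec P 0 ζ (ξ i0)} := by
      refine Submodule.sum_mem _ fun l _ => Submodule.smul_mem _ _ ?_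
      obtain ⟨κ, hκ⟩ := hcon l
      rw [hκ]
      exact Submodule.smul_mem _ _ (Submodule.mem_span_singleton_self _)
    rw [← h4] at h5
    have h6 : -(eval (Sum.elim ζ (ξ i0)) D2) ≠ 0 := neg_ne_zero.2 hD2'
    rw [Submodule.smul_mem_iff _ h6] at h5
    obtain ⟨κ, hκ⟩ := Submodule.mem_span_singleton.1 h5
    exact ⟨κ, hκ.symm⟩
  obtain ⟨w, hw⟩ := rank_big_k hm hP hK h1 h2 h2' h3 hform i0 he0 (hisrel l) hl
  have h7 := hmax ζ w
  have h8 : (K + m).choose m ≤ a' := by omega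
  have := Nat.mul_le_mul_left m h8
  omega

end Helper35.BallK
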