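import Pool.Agent.Helper38.D.Proper
import Pool.Agent.Helper35.BallK.Bound

/-!
The degree bound for proper rational maps between balls.
-/

namespace Helper35.BallK

open Helper38.BallD Helper38.Ball MvPolynomial Metric

/-- The degree bound: if `N ≤ m C(K + m, m)` then a proper rational map from the ball of `ℂ^(m+1)`
to the ball of `ℂ^N` has degree at most `K (N - 1) / m`. -/
theorem degree_bound_k {m N K : ℕ} (hm : 1 ≤ m) (hK1 : 1 ≤ K) {f : CSp (m + 1) → CSp N}
    (hf : IsProper f) (hfr : IsRational f) (hN : N < 1 + m * (K + m).choose m) :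
    DegreeLE f (K * (N - 1) / m) := by
  classical
  have hex := exists_degreeLE hfr
  set d := Nat.find hex with hd
  have hdspec : DegreeLE f d := Nat.find_spec hex
  have hdmin : ∀ d' < d, ¬ DegreeLE f d' := fun d' h => Nat.find_min hex h
  have hmono : ∀ {a b : ℕ}, a ≤ b → DegreeLE f a → DegreeLE f b := by
    rintro a b hab ⟨p, q, hq, hqd, hpd, hpq⟩
    exact ⟨p, q, hq, hqd.trans hab, fun j => (hpd j).trans hab, hpq⟩
  suffices hle : d ≤ K * (N - 1) / m from hmono hle hdspec
  by_cases hd0 : d = 0
  · rw [hd0]; exact Nat.zero_le _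
  obtain ⟨p, q, hq, hqd, hpd, hpq'⟩ := hdspec
  have hpq : ∀ z ∈ ball (0 : CSp (m + 1)) 1, ∀ j, ev q z * f z j = ev (p j) z := hpq'
  have hP : ∀ c, (fam p q c).totalDegree ≤ d := by
    intro c
    refine Fin.cases ?_ (fun j => ?_) c
    · exact hqd
    · exact hpd j
  have htop : ∃ c, (fam p q c).totalDegree = d ∧ fam p q c ≠ 0 := by
    by_contra hcon
    push Not at hcon
    have hlt : ∀ c, (fam p q c).totalDegree ≤ d - 1 := by
      intro c
      have h1 := hP c
      by_contra h2
      have h3 : (fam p q c).totalDegree = d := by omega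
      have h4 := hcon c h3
      rw [h4, totalDegree_zero] at h3
      omega
    exact hdmin (d - 1) (by omega) ⟨p, q, hq, hlt 0, fun j => hlt j.succ, hpq'⟩
  have hcop : ∀ g, (∀ c, g ∣ fam p q c) → g.totalDegree = 0 := by
    intro g hg
    by_contra hgd
    choose P' hP' using hg
    have hg0 : g ≠ 0 := by
      rintro rfl
      simp at hgd
    have hdeg : ∀ c, (P' c).totalDegree ≤ d - 1 := by
      intro c
      by_cases h0 : P' c = 0
      · rw [h0, totalDegree_zero]; exact Nat.zero_le _
      · have h1 := hP c
        rw [hP' c, totalDegree_mul_of_isDomain hg0 h0] at h1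
        omega
    have hq' : q = g * P' 0 := hP' 0
    have hp' : ∀ j, p j = g * P' j.succ := fun j => hP' j.succ
    refine hdmin (d - 1) (by omega) ⟨fun j => P' j.succ, P' 0, ?_, hdeg 0, fun j => hdeg _, ?_⟩
    · intro h0
      rw [h0, mul_zero] at hq'
      exact hq hq'
    · intro z hz j
      have h1 := cancel_on_ball hg0 (h := fun z => ev (P' 0) z * f z j - ev (P' j.succ) z)
        (fun w hw => by
          have hc1 : ContinuousAt f w := (hf.holo w hw).continuousAt
          have hc2 : ContinuousAt (fun z => f z j) w := by
            have : Continuous fun v : CSp N => v j := by fun_prop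
            exact this.continuousAt.comp hc1
          exact ((ev_continuous _).continuousAt.mul hc2).sub (ev_continuous _).continuousAt)
        (fun w hw => by
          have h2 := hpq w hw j
          rw [hq', hp' j] at h2
          simp only [ev, map_mul] at h2 ⊢
          linear_combination h2) z hz
      exact sub_eq_zero.1 h1
  have hnc := nonconst (Nat.succ_pos m) hf hq hpq
  have hK := polarized hf hpq
  rcases bound_k hm hP htop hcop hK hnc K hK1 with h | h
  · rw [Nat.le_div_iff_mul_le (by omega), mul_comm]
    exact h
  · omega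

end Helper35.BallK
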